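import Pool.Agent.Q28.GL.Defs
import Pool.Agent.Q28.MM.Defs

/-!
# Bloch-Beilinson filtrations from one group per variety: definitions
-/

open CategoryTheory AlgebraicGeometry

universe u v w

namespace Pool.Agent.Q28.MJ

open Pool.Agent.H914 Pool.Agent.H914.VarClass Pool.Agent.H914.VarClass.Obj Pool.Agent.W492.BB
  Pool.Agent.W550.Corr Pool.Agent.TH133 Pool.Agent.Q28.GL

variable {k : Type u} [Field k] {𝒱 : VarClass k} {C : TheoryData.{u, v, 0} 𝒱 ℚ} {Z : 𝒱.Obj}

/-- The projector `π (2 j - 1)` acts as zero on the kernel `N Z j` of the Abel-Jacobi map on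
`CH^j(Z)`, for all `j`: that is, `F^2 CH^j(Z)` contains the kernel of the Abel-Jacobi map. -/
def KillsAJ (N : ∀ X : 𝒱.Obj, ℕ → Submodule ℚ (C.A X)) (π : ℕ → C.A (Z.prod Z)) : Prop :=
  ∀ (j : ℕ) (z : C.A Z), z ∈ N Z j → C.act (π (2 * j - 1)) z = 0

/-- Murre's condition (B), second half, for the one Chow-Kunneth decomposition `π` of `Z`:
`F^(i+1) CH^i(Z) = 0`, that is, `π j` acts as zero on `CH^i(Z)` for `j < i`. -/
def SatisfiesB1 (π : ℕ → C.A (Z.prod Z)) : Prop :=
  ∀ i : ℕ, ckFil C π i (i + 1) = ⊥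

variable {K : Type w} [Field K] (H : WeilTheoryData.{u, v, w} C K)

/-- On the Chow groups of all varieties there is a system of filtrations with the properties 1, 3, 4
of a Bloch-Beilinson filtration (`N` being the kernels of the Abel-Jacobi maps, so that
`F^2 CH^j(X) = N X j`) and `F^(M j) CH^j = 0` for all `j`. For `M j = j + 1` it is a Bloch-Beilinson
filtration. -/
def HasSystem (N : ∀ X : 𝒱.Obj, ℕ → Submodule ℚ (C.A X)) (M : ℕ → ℕ) : Prop :=
  ∃ F : ∀ X : 𝒱.Obj, ℕ → ℕ → Submodule ℚ (C.A X), IsPreBB H N (fun _ => True) F ∧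
    ∀ (X : 𝒱.Obj) (j : ℕ), F X j (M j) = ⊥

end Pool.Agent.Q28.MJ
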