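import Pool.Agent.Q28.MJ.Own
import Pool.Agent.Q28.MR.Main

/-!
# Bloch-Beilinson filtrations from one group per variety
-/

open CategoryTheory AlgebraicGeometry

universe u v w

namespace Pool.Agent.Q28.MJ

open Pool.Agent.H914 Pool.Agent.H914.VarClass Pool.Agent.H914.VarClass.Obj Pool.Agent.W492.BB
  Pool.Agent.W550.Corr Pool.Agent.TH133 Pool.Agent.Y148.BB
open Pool.Agent.Q28.MC (KernelLowers)
open Pool.Agent.Q28.GL (IsPreBB HasBB)

set_option linter.unusedSectionVars false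

variable {k : Type u} [Field k] {𝒱 : VarClass k}

variable {C : TheoryData.{u, v, 0} 𝒱 ℚ} {K : Type w} [Field K] {H : WeilTheoryData.{u, v, w} C K}
  [hC : IsChowProj C] [hH : IsWeilProj H] {N : ∀ X : 𝒱.Obj, ℕ → Submodule ℚ (C.A X)}
  {X Y Z W : 𝒱.Obj}

include hC hH

/-- Gluing. -/
theorem hasSystem_of (hN : IsAbelJacobiKernel H N) {M : ℕ → ℕ}
    (h : ∀ X : 𝒱.Obj, ∃ π, IsCK H X π ∧ LowAll H π ∧ KillsAJ N π ∧
      ∀ j, ckFil C π j (M j) = ⊥) : HasSystem H N M := by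
  refine ⟨GL.gF H N (fun _ => True), (GL.isPreBB_gF hN GL.directed_univ).mono fun X _ =>
    GL.hull_univ X, fun X j => ?_⟩
  rw [eq_bot_iff]
  intro z hz
  rw [GL.mem_gF hN GL.directed_univ (GL.hull_univ X)] at hz
  obtain ⟨Z, f, g, -, hr, hz⟩ := hz
  obtain ⟨π, hπ, hL, hA, htop⟩ := h Z
  have h2 := GL.cF_le hN (isLoc_ckFil hN hπ hL hA) _ _ hz
  rw [htop, Submodule.mem_bot] at h2
  rw [Submodule.mem_bot, ← hr.eq z, h2, C.act_map_zero]

/-- Existence of the data for all varieties. -/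
lemma exists_data (hN : IsAbelJacobiKernel H N) {𝓕 : 𝒱.Obj → Prop}
    (hd : ∀ X, ∃ Z c, 𝓕 Z ∧ MM.Summand C c X Z)
    (h : ∀ Z, 𝓕 Z → ∃ π, IsCK H Z π ∧ MM.SatisfiesDAt H (MM.squareCK π) Z.dim ∧ KillsAJ N π)
    (X : 𝒱.Obj) : ∃ π, IsCK H X π ∧ LowAll H π ∧ KillsAJ N π := by
  obtain ⟨Z, c, hZ, hs⟩ := hd (X.prod X)
  obtain ⟨ρ, hρ, hD, hA⟩ := h Z hZ
  have hL : KernelLowers H ρ := (MC.satisfiesDAt_square_iff hρ).1 hD
  obtain ⟨f, g, hfg⟩ := sm_iff.1 hs
  obtain ⟨f0, g0, h0⟩ := sm_iff.1 (summand_square (C := C) (H := H) X (Nat.zero_le _))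
  have hXZ := h0.trans (H := H) hfg
  obtain ⟨π, hπ, -⟩ := MM.lowers_of_summand (sm_iff.2 ⟨_, _, hXZ⟩) hρ hL
  exact ⟨π, hπ, lowAll_of hfg hρ hL hπ, killsAJ_of hN hXZ hρ hL hA hπ⟩

/-- The same with (B1). -/
lemma exists_dataB (hN : IsAbelJacobiKernel H N) {𝓕 : 𝒱.Obj → Prop}
    (hd : ∀ X, ∃ Z, 𝓕 Z ∧ MM.Summand C 0 X Z)
    (h : ∀ Z, 𝓕 Z → ∃ π, IsCK H Z π ∧ MM.SatisfiesDAt H (MM.squareCK π) Z.dim ∧ KillsAJ N π ∧
      SatisfiesB1 π)
    (X : 𝒱.Obj) : ∃ π, IsCK H X π ∧ LowAll H π ∧ KillsAJ N π ∧ SatisfiesB1 π := by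
  obtain ⟨Z, hZ, hs⟩ := hd (X.prod X)
  obtain ⟨ρ, hρ, hD, hA, hB⟩ := h Z hZ
  have hL : KernelLowers H ρ := (MC.satisfiesDAt_square_iff hρ).1 hD
  obtain ⟨f, g, hfg⟩ := sm_iff.1 hs
  obtain ⟨f0, g0, h0⟩ := sm_iff.1 (summand_square (C := C) (H := H) X (Nat.zero_le _))
  have hXZ := h0.trans (H := H) hfg
  obtain ⟨π, hπ, -⟩ := MM.lowers_of_summand (sm_iff.2 ⟨_, _, hXZ⟩) hρ hL
  exact ⟨π, hπ, lowAll_of hfg hρ hL hπ, killsAJ_of hN hXZ hρ hL hA hπ,
    satisfiesB1_of hXZ hρ hL hB hπ⟩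

lemma kunneth_of_ck (h : ∀ X : 𝒱.Obj, ∃ π, IsCK H X π) : KunnethConjecture H := by
  intro X m
  obtain ⟨π, hπ⟩ := h X
  exact ⟨π m, hπ.deg m, fun l a ha => hπ.actH_eq m l ha⟩

/-! ### The converse -/

lemma anti_le {F : ∀ X : 𝒱.Obj, ℕ → ℕ → Submodule ℚ (C.A X)}
    (hF : IsPreBB H N (fun _ => True) F) (X : 𝒱.Obj) (i : ℕ) {n m : ℕ} (hnm : n ≤ m) :
    F X i m ≤ F X i n := by
  induction m, hnm using Nat.le_induction with
  | base => exact le_rfl
  | succ m _ ih => exact (hF.anti X trivial i m).trans ih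

/-- The filtration attached to any Chow-Kunneth decomposition is the given one. -/
lemma ckFil_eq {M : ℕ → ℕ} {F : ∀ X : 𝒱.Obj, ℕ → ℕ → Submodule ℚ (C.A X)}
    (hF : IsPreBB H N (fun _ => True) F) (ht : ∀ (X : 𝒱.Obj) (j : ℕ), F X j (M j) = ⊥)
    {π : ℕ → C.A (X.prod X)} (h : IsCK H X π) (i ν : ℕ) : ckFil C π i ν = F X i ν := by
  apply le_antisymm
  · intro x hx
    rw [h.mem_ckFil] at hx
    have key : ∀ μ : ℕ, μ ≤ ν → x ∈ F X i μ := by
      intro μ
      induction μ with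
      | zero => exact fun _ => (hF.zero X trivial i x).2 hx.1
      | succ μ ih =>
        intro hμ
        have h1 := ih (by omega)
        by_cases hi : μ ≤ 2 * i
        · have h2 : C.Deg (X.dim + (i : ℤ) - i) (dg C X - π (2 * i - μ)) :=
            MR.deg0 (H := H) (Submodule.sub_mem _ (dg_mem C X) (h.deg _)) _
          have h3 : Kills H (dg C X - π (2 * i - μ)) (2 * i - μ) := by
            intro a ha
            rw [map_sub, H.act_sub, TH133.actH_dg, h.act_self (2 * i - μ) a (by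
              have e : (2 * (i : ℤ) - μ) = ((2 * i - μ : ℕ) : ℤ) := by omega
              rw [← e]; exact ha), sub_self]
          have h4 := hF.shift X X trivial trivial i i μ _ h2 h3 x h1
          rwa [C.act_sub, act_dg, hx.2 (2 * i - μ) (by omega), sub_zero] at h4
        · have h2 : C.Deg (X.dim + (i : ℤ) - i) (dg C X) := MR.deg0 (H := H) (dg_mem C X) _
          have h3 : Kills H (dg C X) (2 * i - μ) := by
            intro a ha
            have h5 : a ∈ H.gr X (2 * (i : ℤ) - μ) := ha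
            rw [H.gr_neg X _ (by omega)] at h5
            rw [(Submodule.mem_bot _).1 h5, GL.actH_zero]
          have h4 := hF.shift X X trivial trivial i i μ _ h2 h3 x h1
          rwa [act_dg] at h4
    exact key ν le_rfl
  · intro x hx
    have hx0 : C.Deg i x := (hF.zero X trivial i x).1 (anti_le hF X i (Nat.zero_le _) hx)
    rw [h.mem_ckFil]
    refine ⟨hx0, fun m hm => ?_⟩
    have key : ∀ n : ℕ, C.act (π m) x ∈ F X i (ν + n) := by
      intro n
      induction n with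
      | zero =>
        exact hF.stable X X trivial trivial i i ν _ (MR.deg0 (H := H) (h.deg m) _) x hx
      | succ n ih =>
        have h3 : Kills H (π m) (2 * i - (ν + n : ℕ)) := by
          intro a ha
          exact h.act_ne m _ a (by omega) ha
        have h4 := hF.shift X X trivial trivial i i (ν + n) _ (MR.deg0 (H := H) (h.deg m) _)
          h3 _ ih
        rwa [← C.act_comp, h.idem] at h4
    have h5 := anti_le hF X i (show M i ≤ ν + M i by omega) (key (M i))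
    rw [ht X i, Submodule.mem_bot] at h5
    exact h5

lemma comp_shift {F : ∀ X : 𝒱.Obj, ℕ → ℕ → Submodule ℚ (C.A X)}
    (hF : IsPreBB H N (fun _ => True) F) {n : ℕ} {a y : C.A (X.prod X)}
    (ha : a ∈ C.gr (X.prod X) X.dim) (h0 : H.cl a = 0) (hy : y ∈ F (X.prod X) X.dim n) :
    C.comp y a ∈ F (X.prod X) X.dim (n + 1) := by
  have ha' : a ∈ C.gr (X.prod X) (X.dim + 0) := by rw [add_zero]; exact ha
  obtain ⟨Γ, hΓ, h1, h2⟩ := Realised.extR (H := H) ha' X
  have h3 : C.Deg ((X.prod X).dim + (X.dim : ℤ) - X.dim) Γ := by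
    have e : ((X.prod X).dim : ℤ) + (X.dim : ℤ) - X.dim = (X.prod X).dim + 0 := by ring
    rw [e]; exact hΓ
  have h4 : ∀ l, Kills H Γ l := by
    intro l b _
    rw [h2, h0, MR.extR_zero_left (C := C)]
  have h5 := hF.shift _ _ trivial trivial X.dim X.dim n Γ h3 (h4 _) y hy
  rw [h1, ← comp_eq_extR] at h5
  exact h5

/-- Homologically trivial self-correspondences are nilpotent. -/
lemma nilp {M : ℕ → ℕ} {F : ∀ X : 𝒱.Obj, ℕ → ℕ → Submodule ℚ (C.A X)}
    (hF : IsPreBB H N (fun _ => True) F) (ht : ∀ (X : 𝒱.Obj) (j : ℕ), F X j (M j) = ⊥)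
    {a : Cor C X} (ha : a ∈ cor0 C X) (h0 : H.cl (X := X.prod X) a = 0) :
    a ^ (M X.dim) = 0 := by
  have key : ∀ n : ℕ, (a ^ n : Cor C X) ∈ F (X.prod X) X.dim n := by
    intro n
    induction n with
    | zero =>
      rw [pow_zero]
      exact (hF.zero _ trivial _ _).2 (dg_mem C X)
    | succ n ih =>
      rw [pow_succ']
      exact comp_shift hF ha h0 ih
  have h1 := key (M X.dim)
  rw [ht] at h1
  exact (Submodule.mem_bot _).1 h1

/-- Chow-Kunneth decompositions exist. -/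
lemma exists_ck {M : ℕ → ℕ} {F : ∀ X : 𝒱.Obj, ℕ → ℕ → Submodule ℚ (C.A X)}
    (hF : IsPreBB H N (fun _ => True) F) (ht : ∀ (X : 𝒱.Obj) (j : ℕ), F X j (M j) = ⊥)
    (hK : KunnethConjecture H) (X : 𝒱.Obj) : ∃ π, IsCK H X π := by
  choose p hp hpa using hK X
  let P : ℕ → cor0 C X := fun m => ⟨p m, hp m⟩
  let f : cor0 C X →+* Module.End K (H.A X) :=
    (actH C X H).comp (cor0 C X).val.toRingHom
  have hf : ∀ a : cor0 C X, f a = actH C X H a := fun a => rfl
  have hfP : ∀ (m : ℕ) (l : ℤ) (a : H.A X), H.Deg l a → f (P m) a = if l = m then a else 0 :=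
    fun m l a ha => hpa m l a ha
  have hnil : ∀ x ∈ RingHom.ker f, IsNilpotent x := by
    intro x hx
    rw [RingHom.mem_ker, hf] at hx
    have h0 : H.cl (X := X.prod X) (x : Cor C X) = 0 :=
      hom_zero_of_act H (X := X) (Y := X) fun a => LinearMap.congr_fun hx a
    refine ⟨M X.dim, Subtype.ext ?_⟩
    rw [SubmonoidClass.coe_pow]
    exact nilp hF ht x.2 h0
  have he : CompleteOrthogonalIdempotents (fun i : Fin (2 * X.dim + 1) => f (P i)) := by
    rw [CompleteOrthogonalIdempotents.iff_ortho_complete]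
    constructor
    · intro i j hij
      apply ext_gr H
      intro l a ha
      rw [LinearMap.zero_apply]
      change f (P i) (f (P j) a) = 0
      rw [hfP j l a ha]
      split_ifs with hl
      · rw [hfP i l a ha, if_neg]
        intro h1
        rw [h1] at hl
        apply hij
        apply Fin.ext
        exact_mod_cast hl
      · exact map_zero _
    · apply ext_gr H
      intro l a ha
      rw [LinearMap.sum_apply]
      by_cases ha0 : a = 0
      · rw [ha0]
        simp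
      have h1 := nonneg_of_mem H ha ha0
      have h2 : l ≤ 2 * X.dim := by
        by_contra h3
        rw [gr_top H (by omega)] at ha
        exact ha0 ((Submodule.mem_bot _).1 ha)
      obtain ⟨n, rfl⟩ := Int.eq_ofNat_of_zero_le h1
      have hn : n < 2 * X.dim + 1 := by omega
      rw [Finset.sum_eq_single (⟨n, hn⟩ : Fin (2 * X.dim + 1))]
      · rw [hfP _ _ _ ha, if_pos rfl]
        rfl
      · intro b _ hb
        rw [hfP _ _ _ ha, if_neg]
        intro h4
        apply hb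
        apply Fin.ext
        exact_mod_cast h4.symm
      · intro h5
        exact absurd (Finset.mem_univ _) h5
  obtain ⟨e', he', hfe⟩ := CompleteOrthogonalIdempotents.lift_of_isNilpotent_ker f hnil he
    (fun i => ⟨P i, rfl⟩)
  let Q : ℕ → Cor C X := fun m => if h : m < 2 * X.dim + 1 then (e' ⟨m, h⟩ : Cor C X) else 0
  refine ⟨Q, isCK_of (P := Q) ?_ ?_ ?_ ?_ ?_⟩
  · intro i
    simp only [Q]
    split_ifs
    · exact (e' _).2
    · exact (cor0 C X).zero_mem
  · intro i hi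
    simp only [Q]
    rw [dif_neg (by omega)]
  · intro i j
    simp only [Q]
    by_cases hi : i < 2 * X.dim + 1
    · by_cases hj : j < 2 * X.dim + 1
      · rw [dif_pos hi, dif_pos hj]
        have h1 := he'.toOrthogonalIdempotents.mul_eq ⟨i, hi⟩ ⟨j, hj⟩
        have h2 := congrArg (Subtype.val) h1
        rw [MulMemClass.coe_mul] at h2
        rw [h2]
        by_cases hij : i = j
        · rw [if_pos hij, if_pos (Fin.ext hij)]
        · rw [if_neg hij, if_neg (fun h3 => hij (Fin.ext_iff.1 h3))]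
          rfl
      · rw [dif_neg hj, mul_zero]
        split_ifs with h3
        · exact absurd (h3 ▸ hi) hj
        · rfl
    · rw [dif_neg hi, zero_mul]
      simp
  · rw [← Fin.sum_univ_eq_sum_range]
    have h1 := congrArg (Subtype.val) he'.complete
    rw [AddSubmonoidClass.coe_finsetSum] at h1
    have h2 : ∑ i : Fin (2 * X.dim + 1), Q i = ∑ i : Fin (2 * X.dim + 1), (e' i : Cor C X) := by
      apply Finset.sum_congr rfl
      intro i _
      simp only [Q]
      rw [dif_pos i.2]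
    rw [h2]
    exact h1
  · intro i m a ha
    simp only [Q]
    by_cases hi : i < 2 * X.dim + 1
    · rw [dif_pos hi]
      have h1 := congrFun hfe ⟨i, hi⟩
      have h2 := LinearMap.congr_fun h1 a
      change actH C X H (e' ⟨i, hi⟩ : Cor C X) a = f (P i) a at h2
      rw [h2, hfP _ _ _ ha]
    · rw [dif_neg hi, map_zero, LinearMap.zero_apply]
      split_ifs with h3
      · subst h3
        have h4 : a ∈ H.gr X i := ha
        rw [gr_top H (by omega)] at h4
        exact ((Submodule.mem_bot _).1 h4).symm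
      · rfl

/-- A system gives the conditions for every variety and every Chow-Kunneth decomposition. -/
lemma data_of {M : ℕ → ℕ} (hS : HasSystem H N M) (hK : KunnethConjecture H) (Z : 𝒱.Obj) :
    ∃ π, IsCK H Z π ∧ MM.SatisfiesDAt H (MM.squareCK π) Z.dim ∧ KillsAJ N π ∧
      ∀ j, ckFil C π j (M j) = ⊥ := by
  obtain ⟨F, hF, ht⟩ := hS
  obtain ⟨π, hπ⟩ := exists_ck hF ht hK Z
  have hsq : IsCK H (Z.prod Z) (MM.squareCK π) := hπ.dual.prod hπ
  refine ⟨π, hπ, ?_, ?_, fun j => ?_⟩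
  · intro x hx h0
    rw [ckFil_eq hF ht hsq]
    exact (hF.one _ trivial _ _).2 ⟨hx, h0⟩
  · intro j z hz
    rw [← hF.two Z trivial j, ← ckFil_eq hF ht hπ, hπ.mem_ckFil] at hz
    exact hz.2 _ (by omega)
  · rw [ckFil_eq hF ht hπ, ht]

/-- Under the Lefschetz standard conjecture the bound improves by itself. -/
theorem lefschetz (hL : GL.LefschetzFactors H) {M : ℕ → ℕ} (h : HasSystem H N M) :
    HasBB H N 0 (fun _ => True) := by
  obtain ⟨F, hF, ht⟩ := h
  refine ⟨F, hF, fun X _ j => ?_⟩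
  have key : ∀ ν, j < ν → F X j ν ≤ F X j (ν + 1) := by
    intro ν hν z hz
    have hzj : C.Deg j z := (hF.zero X trivial j z).1 (anti_le hF X j (Nat.zero_le _) hz)
    have hdg : C.Deg (X.dim + (j : ℤ) - j) (dg C X) := MR.deg0 (H := H) (dg_mem C X) _
    by_cases hm : 2 * j < ν
    · have hk : Kills H (dg C X) (2 * j - ν) := by
        intro a ha
        have h0 : H.gr X (2 * (j : ℤ) - ν) = ⊥ := H.gr_neg X _ (by omega)
        have : a = 0 := by
          have : a ∈ H.gr X (2 * (j : ℤ) - ν) := ha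
          rw [h0] at this
          exact (Submodule.mem_bot _).1 this
        rw [this, GL.actH_zero]
      have := hF.shift X X trivial trivial j j ν (dg C X) hdg hk z hz
      rwa [act_dg] at this
    · obtain ⟨m, hm'⟩ : ∃ m : ℕ, m = 2 * j - ν := ⟨_, rfl⟩
      obtain ⟨Y, a, b, hY, ha, hb, hab⟩ := hL X m
      have hmz : (m : ℤ) = 2 * (j : ℤ) - ν := by omega
      have ha' : C.Deg (X.dim + (j : ℤ) - j) a := by simpa using ha
      have hb' : C.Deg (Y.dim + (j : ℤ) - j) b := by simpa using hb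
      have hk : Kills H (dg C X - C.comp a b) (2 * j - ν) := by
        intro α hα
        rw [← hmz] at hα
        rw [map_sub, H.act_sub, GL.actH_comp, hab α hα, TH133.actH_dg, sub_self]
      have h1 := hF.shift X X trivial trivial j j ν (dg C X - C.comp a b)
        (Submodule.sub_mem _ hdg (GL.comp_deg ha' hb')) hk z hz
      have h2 : C.act a z = 0 := by
        have h3 : C.Deg j (C.act a z) := GL.act_deg ha' hzj
        exact hC.gr_top Y j _ h3 (by omega)
      rw [C.act_sub, act_dg, C.act_comp, h2, C.act_map_zero, sub_zero] at h1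
      exact h1
  have all : ∀ e : ℕ, F X j (j + 1) ≤ F X j (j + 1 + e) := by
    intro e
    induction e with
    | zero => exact le_rfl
    | succ e ih => exact ih.trans (key (j + 1 + e) (by omega))
  rw [eq_bot_iff, Nat.add_zero, ← ht X j]
  exact (all (M j)).trans (anti_le hF X j (by omega))

theorem main (hN : IsAbelJacobiKernel H N) :
    (∀ 𝓕 : 𝒱.Obj → Prop, (∀ X, ∃ Z c, 𝓕 Z ∧ MM.Summand C c X Z) →
      [KunnethConjecture H ∧ HasSystem H N (fun j => 2 * j + 1),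
        KunnethConjecture H ∧ ∃ M, HasSystem H N M,
        ∀ Z, 𝓕 Z → ∃ π, IsCK H Z π ∧ MM.SatisfiesDAt H (MM.squareCK π) Z.dim ∧
          KillsAJ N π].TFAE) ∧
    (∀ 𝓕 : 𝒱.Obj → Prop, (∀ X, ∃ Z, 𝓕 Z ∧ MM.Summand C 0 X Z) →
      ((KunnethConjecture H ∧ HasBB H N 0 (fun _ => True)) ↔
        ∀ Z, 𝓕 Z → ∃ π, IsCK H Z π ∧ MM.SatisfiesDAt H (MM.squareCK π) Z.dim ∧ KillsAJ N π ∧
          SatisfiesB1 π)) ∧
    (GL.LefschetzFactors H → ∀ 𝓕 : 𝒱.Obj → Prop, (∀ X, ∃ Z c, 𝓕 Z ∧ MM.Summand C c X Z) →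
      ((KunnethConjecture H ∧ HasBB H N 0 (fun _ => True)) ↔
        ∀ Z, 𝓕 Z → ∃ π, IsCK H Z π ∧ MM.SatisfiesDAt H (MM.squareCK π) Z.dim ∧
          KillsAJ N π)) := by
  have hT : ∀ 𝓕 : 𝒱.Obj → Prop, (∀ X, ∃ Z c, 𝓕 Z ∧ MM.Summand C c X Z) →
      [KunnethConjecture H ∧ HasSystem H N (fun j => 2 * j + 1),
        KunnethConjecture H ∧ ∃ M, HasSystem H N M,
        ∀ Z, 𝓕 Z → ∃ π, IsCK H Z π ∧ MM.SatisfiesDAt H (MM.squareCK π) Z.dim ∧
          KillsAJ N π].TFAE := by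
    intro 𝓕 hd
    tfae_have 1 → 2 := fun h => ⟨h.1, _, h.2⟩
    tfae_have 2 → 3 := by
      rintro ⟨hK, M, hM⟩ Z _
      obtain ⟨π, h1, h2, h3, -⟩ := data_of hM hK Z
      exact ⟨π, h1, h2, h3⟩
    tfae_have 3 → 1 := by
      intro h
      have h1 := exists_data hN hd h
      refine ⟨kunneth_of_ck fun X => ?_, hasSystem_of hN fun X => ?_⟩
      · obtain ⟨π, hπ, -⟩ := h1 X
        exact ⟨π, hπ⟩
      · obtain ⟨π, h2, h3, h4⟩ := h1 X
        exact ⟨π, h2, h3, h4, fun j => MR.ckFil_empty (H := H) π j⟩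
    tfae_finish
  refine ⟨hT, fun 𝓕 hd => ⟨?_, fun h => ?_⟩, fun hL 𝓕 hd => ⟨?_, fun h => ?_⟩⟩
  · rintro ⟨hK, F, hF, ht⟩ Z _
    obtain ⟨π, h1, h2, h3, h4⟩ := data_of (M := fun j => j + 0 + 1)
      ⟨F, hF, fun X j => ht X trivial j⟩ hK Z
    exact ⟨π, h1, h2, h3, h4⟩
  · have h1 := exists_dataB hN hd h
    refine ⟨kunneth_of_ck fun X => ?_, ?_⟩
    · obtain ⟨π, hπ, -⟩ := h1 X
      exact ⟨π, hπ⟩
    · obtain ⟨F, hF, ht⟩ := hasSystem_of (M := fun j => j + 0 + 1) hN fun X => h1 X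
      exact ⟨F, hF, fun X _ j => ht X j⟩
  · rintro ⟨hK, F, hF, ht⟩ Z _
    obtain ⟨π, h1, h2, h3, -⟩ := data_of (M := fun j => j + 0 + 1)
      ⟨F, hF, fun X j => ht X trivial j⟩ hK Z
    exact ⟨π, h1, h2, h3⟩
  · have h1 := ((hT 𝓕 hd).out 2 0).1 h
    exact ⟨h1.1, lefschetz hL h1.2⟩

end Pool.Agent.Q28.MJ
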