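import Pool.Agent.Q28.MJ.Stmt
import Pool.Agent.Q28.MJ.Main

/-!
# Bloch-Beilinson filtrations from one group per variety: the final form
-/

open CategoryTheory AlgebraicGeometry

universe u v w

namespace Pool.Agent.Q28.MJ

open Pool.Agent.H914 Pool.Agent.H914.VarClass Pool.Agent.H914.VarClass.Obj Pool.Agent.W492.BB
  Pool.Agent.W550.Corr Pool.Agent.TH133 Pool.Agent.Y148.BB
open Pool.Agent.Q28.MC (KernelLowers)
open Pool.Agent.Q28.GL (IsPreBB HasBB)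

set_option linter.unusedSectionVars false

variable {k : Type u} [Field k] {𝒱 : VarClass k}

variable {C : TheoryData.{u, v, 0} 𝒱 ℚ} {K : Type w} [Field K] {H : WeilTheoryData.{u, v, w} C K}
  [hC : IsChowProj C] [hH : IsWeilProj H] {N : ∀ X : 𝒱.Obj, ℕ → Submodule ℚ (C.A X)}
  {X Y Z W : 𝒱.Obj}

include hC hH

lemma hasSystem_iff {M : ℕ → ℕ} : HasSystem H N M ↔ ∃ F, IsSystem H N M F := by
  constructor
  · rintro ⟨F, hF, ht⟩
    exact ⟨F, fun X => hF.anti X trivial, fun X => hF.zero X trivial, fun X => hF.one X trivial,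
      fun X => hF.two X trivial, ht, fun X Y j i ν Γ hΓ z hz =>
        ⟨hF.stable X Y trivial trivial j i ν Γ hΓ z hz,
          fun hk => hF.shift X Y trivial trivial j i ν Γ hΓ hk z hz⟩⟩
  · rintro ⟨F, hF⟩
    exact ⟨F, ⟨fun X _ => hF.anti X, fun X _ => hF.zero X, fun X _ => hF.one X,
      fun X _ => hF.two X, fun X Y _ _ j i ν Γ hΓ z hz => (hF.corr X Y j i ν Γ hΓ z hz).1,
      fun X Y _ _ j i ν Γ hΓ hk z hz => (hF.corr X Y j i ν Γ hΓ z hz).2 hk⟩, hF.top⟩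

lemma hasBB_iff : HasBB H N 0 (fun _ => True) ↔ ∃ F, IsSystem H N (fun j => j + 1) F := by
  rw [← hasSystem_iff]
  constructor
  · rintro ⟨F, hF, ht⟩
    exact ⟨F, hF, fun X j => ht X trivial j⟩
  · rintro ⟨F, hF, ht⟩
    exact ⟨F, hF, fun X _ j => ht X j⟩

lemma isGood_iff {π : ℕ → C.A (Z.prod Z)} :
    IsGood H N π ↔ IsCK H Z π ∧ MM.SatisfiesDAt H (MM.squareCK π) Z.dim ∧ KillsAJ N π := by
  constructor
  · intro h
    exact ⟨h.isCK, (MC.satisfiesDAt_square_iff h.isCK).2 h.lower, h.kills⟩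
  · rintro ⟨h1, h2, h3⟩
    exact ⟨h1, (MC.satisfiesDAt_square_iff h1).1 h2, h3⟩

lemma satisfiesB1_iff {π : ℕ → C.A (Z.prod Z)} (h : IsCK H Z π) :
    SatisfiesB1 π ↔ ∀ (i j : ℕ) (z : C.A Z), C.Deg i z → j < i → C.act (π j) z = 0 := by
  constructor
  · intro hB i j z hz hj
    have h1 : C.act (π j) z ∈ ckFil C π i (i + 1) := by
      rw [h.mem_ckFil]
      refine ⟨act_mem0 C (h.deg j) hz, fun m hm => ?_⟩
      rw [← C.act_comp, h.orth j m (by omega), C.act_zero]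
    rw [hB i, Submodule.mem_bot] at h1
    exact h1
  · intro hB i
    rw [eq_bot_iff]
    intro x hx
    rw [h.mem_ckFil] at hx
    have h1 : x = ∑ m ∈ Finset.range (2 * Z.dim + 1), C.act (π m) x := by
      rw [← act_sum, h.sum, act_dg]
    rw [Submodule.mem_bot, h1]
    apply Finset.sum_eq_zero
    intro m _
    by_cases hm : m < i
    · exact hB i m x hx.1 hm
    · exact hx.2 m (by omega)

theorem final (hN : IsAbelJacobiKernel H N) (𝓕 : 𝒱.Obj → Prop) :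
    (Generates C Set.univ 𝓕 →
      [KunnethConjecture H ∧ ∃ F, IsSystem H N (fun j => 2 * j + 1) F,
        KunnethConjecture H ∧ ∃ M F, IsSystem H N M F,
        ∀ Z, 𝓕 Z → ∃ π : ℕ → C.A (Z.prod Z), IsGood H N π].TFAE) ∧
    (Generates C {0} 𝓕 →
      ((KunnethConjecture H ∧ ∃ F, IsSystem H N (fun j => j + 1) F) ↔
        ∀ Z, 𝓕 Z → ∃ π : ℕ → C.A (Z.prod Z), IsGood H N π ∧
          ∀ (i j : ℕ) (z : C.A Z), C.Deg i z → j < i → C.act (π j) z = 0)) ∧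
    (LefschetzFactors H → Generates C Set.univ 𝓕 →
      ((KunnethConjecture H ∧ ∃ F, IsSystem H N (fun j => j + 1) F) ↔
        ∀ Z, 𝓕 Z → ∃ π : ℕ → C.A (Z.prod Z), IsGood H N π)) := by
  obtain ⟨h1, h2, h3⟩ := main (H := H) hN
  have e1 : Generates C Set.univ 𝓕 → ∀ X, ∃ Z c, 𝓕 Z ∧ MM.Summand C c X Z := by
    intro h X
    obtain ⟨Z, hZ, c, -, hs⟩ := h X
    exact ⟨Z, c, hZ, hs⟩
  have e2 : Generates C {0} 𝓕 → ∀ X, ∃ Z, 𝓕 Z ∧ MM.Summand C 0 X Z := by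
    intro h X
    obtain ⟨Z, hZ, c, hc, hs⟩ := h X
    rw [Set.mem_singleton_iff] at hc
    subst hc
    exact ⟨Z, hZ, hs⟩
  refine ⟨fun hg => ?_, fun hg => ?_, fun hL hg => ?_⟩
  · have h := h1 𝓕 (e1 hg)
    simp_rw [isGood_iff, ← hasSystem_iff]
    exact h
  · rw [← hasBB_iff, h2 𝓕 (e2 hg)]
    refine forall₂_congr fun Z _ => exists_congr fun π => ?_
    rw [isGood_iff]
    constructor
    · rintro ⟨a, b, c, d⟩
      exact ⟨⟨a, b, c⟩, (satisfiesB1_iff a).1 d⟩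
    · rintro ⟨⟨a, b, c⟩, d⟩
      exact ⟨a, b, c, (satisfiesB1_iff a).2 d⟩
  · rw [← hasBB_iff, h3 hL 𝓕 (e1 hg)]
    simp_rw [isGood_iff]

end Pool.Agent.Q28.MJ
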