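import Pool.Agent.Q28.MJ.Sum

/-!
# Homologically trivial correspondences of all degrees lower the weights
-/

open CategoryTheory AlgebraicGeometry

universe u v w

namespace Pool.Agent.Q28.MJ

open Pool.Agent.H914 Pool.Agent.H914.VarClass Pool.Agent.H914.VarClass.Obj Pool.Agent.W492.BB
  Pool.Agent.W550.Corr Pool.Agent.TH133
open Pool.Agent.Q28.MC (KernelLowers)

set_option linter.unusedSectionVars false

variable {k : Type u} [Field k] {𝒱 : VarClass k}

variable {C : TheoryData.{u, v, 0} 𝒱 ℚ} {K : Type w} [Field K] {H : WeilTheoryData.{u, v, w} C K}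
  [hC : IsChowProj C] [hH : IsWeilProj H] {X Y Z W : 𝒱.Obj}

include hC hH

/-- The data of a summand. -/
structure Sm (C : TheoryData.{u, v, 0} 𝒱 ℚ) (a : ℕ) (X Z : 𝒱.Obj) (f : C.A (X.prod Z))
    (g : C.A (Z.prod X)) : Prop where
  f_deg : C.Deg ((X.dim : ℤ) + a - 0) f
  g_deg : C.Deg ((Z.dim : ℤ) + 0 - a) g
  eq : C.comp f g = dg C X

omit hC hH in
lemma sm_iff {a : ℕ} : MM.Summand C a X Z ↔ ∃ f g, Sm C a X Z f g := by
  constructor
  · rintro ⟨f, g, h1, h2, h3⟩
    exact ⟨f, g, by simpa using h1, by simpa using h2, h3⟩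
  · rintro ⟨f, g, h⟩
    exact ⟨f, g, by simpa using h.f_deg, by simpa using h.g_deg, h.eq⟩

lemma never {ρ : ℕ → C.A (Z.prod Z)} (h : IsCK H Z ρ) (hL : KernelLowers H ρ)
    {γ : C.A (Z.prod Z)} (hγ : C.Deg Z.dim γ) {a b : ℕ} (hab : a < b) :
    C.comp (C.comp (ρ a) γ) (ρ b) = 0 :=
  ((MC.universalC_iff h).1 (MC.universal_of_lowers h hL)).1 γ hγ a b hab

/-- The middle endomorphism `γ = f ∘ π_k ∘ g` of `h(Z)`. -/
lemma mid_deg {a : ℕ} {f : C.A (X.prod Z)} {g : C.A (Z.prod X)} (h : Sm C a X Z f g)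
    {π : ℕ → C.A (X.prod X)} (hπ : IsCK H X π) (k : ℕ) :
    C.Deg Z.dim (C.comp (C.comp g (π k)) f) := by
  have h1 : C.Deg ((X.dim : ℤ) + 0 - 0) (π k) := by simpa using hπ.deg k
  have h2 := MM.comp_deg (MM.comp_deg h.g_deg h1) h.f_deg
  simpa using h2

/-- `ρ_m ∘ γ ∘ ρ_m = 0` for `m ≠ q + 2 a`. -/
lemma mid_diag {a : ℕ} {f : C.A (X.prod Z)} {g : C.A (Z.prod X)} (h : Sm C a X Z f g)
    {π : ℕ → C.A (X.prod X)} (hπ : IsCK H X π) {ρ : ℕ → C.A (Z.prod Z)} (hρ : IsCK H Z ρ)
    (hL : KernelLowers H ρ) {q m : ℕ} (hm : m ≠ q + 2 * a) :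
    C.comp (C.comp (ρ m) (C.comp (C.comp g (π q)) f)) (ρ m) = 0 := by
  set γ := C.comp (C.comp g (π q)) f with hγ
  have hd := mid_deg (H := H) h hπ q
  have hs : C.Deg Z.dim (C.comp (C.comp (ρ m) γ) (ρ m)) :=
    comp_mem0 C (comp_mem0 C (hρ.deg m) hd) (hρ.deg m)
  have h0 : H.cl (C.comp (C.comp (ρ m) γ) (ρ m)) = 0 := by
    apply MM.cl_eq_zero_of_homogeneous
    intro l x hx
    rw [TH133.actH_comp, TH133.actH_comp, hρ.actH_eq m l hx]
    split_ifs with hl
    · subst hl
      rw [hγ, TH133.actH_comp, TH133.actH_comp]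
      have h1 := MM.actH_deg h.g_deg hx
      rw [hπ.actH_eq q _ h1, if_neg (by omega), TheoryData.act_map_zero, TheoryData.act_map_zero]
    · rw [TheoryData.act_map_zero, TheoryData.act_map_zero]
  have h1 := hL _ hs h0 m m le_rfl
  have h2 : C.comp (C.comp (ρ m) (C.comp (C.comp (ρ m) γ) (ρ m))) (ρ m) =
      C.comp (C.comp (ρ m) γ) (ρ m) := by
    rw [← comp_assoc, ← comp_assoc, hρ.idem, comp_assoc, hρ.idem]
  rw [← h2]
  exact h1

/-- The components of `π_k f` of too large weight vanish. -/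
lemma left_zero {a : ℕ} {f : C.A (X.prod Z)} {g : C.A (Z.prod X)} (h : Sm C a X Z f g)
    {π : ℕ → C.A (X.prod X)} (hπ : IsCK H X π) {ρ : ℕ → C.A (Z.prod Z)} (hρ : IsCK H Z ρ)
    (hL : KernelLowers H ρ) {k : ℕ} : ∀ m : ℕ, k + 2 * a < m →
    C.comp (C.comp (π k) f) (ρ m) = 0 := by
  have key : ∀ e m : ℕ, 2 * Z.dim < m + e → k + 2 * a < m →
      C.comp (C.comp (π k) f) (ρ m) = 0 := by
    intro e
    induction e with
    | zero =>
      intro m hm _
      rw [hρ.out m (by omega), comp_zero]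
    | succ e ih =>
      intro m hm hk
      have h1 : C.comp (C.comp (π k) f) (ρ m) =
          C.comp (C.comp (C.comp (π k) f) (∑ i ∈ Finset.range (2 * Z.dim + 1), ρ i))
            (C.comp (C.comp (C.comp g (π k)) f) (ρ m)) := by
        rw [hρ.sum, comp_dg]
        calc C.comp (C.comp (π k) f) (ρ m)
            = C.comp (C.comp (C.comp (π k) (C.comp (dg C X) (π k))) f) (ρ m) := by
              rw [dg_comp, hπ.idem]
          _ = _ := by
              rw [← h.eq]
              simp only [comp_assoc]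
      rw [h1, comp_sum, sum_comp]
      apply Finset.sum_eq_zero
      intro i _
      rcases lt_trichotomy i m with hi | hi | hi
      · have h2 := never hρ hL (mid_deg (H := H) h hπ k) hi
        calc C.comp (C.comp (C.comp (π k) f) (ρ i)) (C.comp (C.comp (C.comp g (π k)) f) (ρ m))
            = C.comp (C.comp (π k) f) (C.comp (C.comp (ρ i) (C.comp (C.comp g (π k)) f))
                (ρ m)) := by simp only [comp_assoc]
          _ = 0 := by rw [h2, comp_zero]
      · subst hi
        have h2 := mid_diag h hπ hρ hL (q := k) (m := i) (by omega)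
        calc C.comp (C.comp (C.comp (π k) f) (ρ i)) (C.comp (C.comp (C.comp g (π k)) f) (ρ i))
            = C.comp (C.comp (π k) f) (C.comp (C.comp (ρ i) (C.comp (C.comp g (π k)) f))
                (ρ i)) := by simp only [comp_assoc]
          _ = 0 := by rw [h2, comp_zero]
      · rw [ih i (by omega) (by omega), zero_comp]
  intro m hm
  exact key (2 * Z.dim + 1) m (by omega) hm

/-- The components of `g π_k` of too small weight vanish. -/
lemma right_zero {a : ℕ} {f : C.A (X.prod Z)} {g : C.A (Z.prod X)} (h : Sm C a X Z f g)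
    {π : ℕ → C.A (X.prod X)} (hπ : IsCK H X π) {ρ : ℕ → C.A (Z.prod Z)} (hρ : IsCK H Z ρ)
    (hL : KernelLowers H ρ) {k : ℕ} : ∀ m : ℕ, m < k + 2 * a →
    C.comp (C.comp (ρ m) g) (π k) = 0 := by
  intro m
  induction m using Nat.strong_induction_on with
  | _ m ih =>
    intro hk
    have h1 : C.comp (C.comp (ρ m) g) (π k) =
        C.comp (C.comp (C.comp (ρ m) (C.comp (C.comp g (π k)) f))
          (∑ i ∈ Finset.range (2 * Z.dim + 1), ρ i)) (C.comp g (π k)) := by
      rw [hρ.sum, comp_dg]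
      calc C.comp (C.comp (ρ m) g) (π k)
          = C.comp (C.comp (ρ m) g) (C.comp (π k) (C.comp (dg C X) (π k))) := by
            rw [dg_comp, hπ.idem]
        _ = _ := by
            rw [← h.eq]
            simp only [comp_assoc]
    rw [h1, comp_sum, sum_comp]
    apply Finset.sum_eq_zero
    intro i _
    rcases lt_trichotomy m i with hi | hi | hi
    · rw [never hρ hL (mid_deg (H := H) h hπ k) hi, zero_comp]
    · subst hi
      rw [mid_diag h hπ hρ hL (q := k) (by omega), zero_comp]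
    · have h2 := ih i hi (by omega)
      calc C.comp (C.comp (C.comp (ρ m) (C.comp (C.comp g (π k)) f)) (ρ i)) (C.comp g (π k))
          = C.comp (C.comp (ρ m) (C.comp (C.comp g (π k)) f))
              (C.comp (C.comp (ρ i) g) (π k)) := by simp only [comp_assoc]
        _ = 0 := by rw [h2, comp_zero]

/-- **Homologically trivial correspondences of any degree lower the weights**, if twists of `h(X)`
and `h(Y)` whose difference is the degree are direct summands of a motive `h(Z)` with this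
property in degree zero. -/
theorem lower_all {a a' : ℕ} {f : C.A (X.prod Z)} {g : C.A (Z.prod X)} (h : Sm C a X Z f g)
    {f' : C.A (Y.prod Z)} {g' : C.A (Z.prod Y)} (h' : Sm C a' Y Z f' g')
    {π : ℕ → C.A (X.prod X)} (hπ : IsCK H X π) {π' : ℕ → C.A (Y.prod Y)} (hπ' : IsCK H Y π')
    {ρ : ℕ → C.A (Z.prod Z)} (hρ : IsCK H Z ρ) (hL : KernelLowers H ρ) {i j : ℤ}
    (hij : (a : ℤ) = a' + (i - j)) {Γ : C.A (X.prod Y)} (hΓ : C.Deg (X.dim + i - j) Γ)
    (h0 : H.cl Γ = 0) {k l : ℕ} (hkl : (k : ℤ) + 2 * (i - j) ≤ l) :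
    C.comp (C.comp (π k) Γ) (π' l) = 0 := by
  have hΓ' : C.Deg ((X.dim : ℤ) + (i - j) - 0) Γ := by
    have e : (X.dim : ℤ) + (i - j) - 0 = X.dim + i - j := by ring
    rwa [e]
  have hf' : C.Deg ((Y.dim : ℤ) + (a' + (i - j)) - (i - j)) f' := by
    have e : (Y.dim : ℤ) + (a' + (i - j)) - (i - j) = Y.dim + a' - 0 := by ring
    rw [e]
    exact h'.f_deg
  set γ := C.comp (C.comp g Γ) f' with hγdef
  have hγ : C.Deg Z.dim γ := by
    have h1 := MM.comp_deg (MM.comp_deg h.g_deg hΓ') hf'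
    have e : (Z.dim : ℤ) + (a' + (i - j)) - a = Z.dim := by rw [hij]; ring
    rwa [e] at h1
  have hγ0 : H.cl γ = 0 := by
    apply MM.cl_eq_zero_of_homogeneous
    intro m x _
    rw [hγdef, TH133.actH_comp, TH133.actH_comp, h0, TheoryData.act_zero,
      TheoryData.act_map_zero]
  have h1 : C.comp (C.comp (π k) Γ) (π' l) =
      C.comp (C.comp (C.comp (C.comp (π k) f) (∑ m ∈ Finset.range (2 * Z.dim + 1), ρ m)) γ)
        (C.comp (∑ n ∈ Finset.range (2 * Z.dim + 1), ρ n) (C.comp g' (π' l))) := by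
    rw [hρ.sum, comp_dg, dg_comp]
    calc C.comp (C.comp (π k) Γ) (π' l)
        = C.comp (C.comp (C.comp (π k) (dg C X)) Γ) (C.comp (dg C Y) (π' l)) := by
          rw [comp_dg, dg_comp]
      _ = _ := by
          rw [← h.eq, ← h'.eq, hγdef]
          simp only [comp_assoc]
  rw [h1, comp_sum, sum_comp, sum_comp]
  apply Finset.sum_eq_zero
  intro m _
  rw [sum_comp, comp_sum]
  apply Finset.sum_eq_zero
  intro n _
  by_cases hm : k + 2 * a < m
  · rw [left_zero h hπ hρ hL m hm, zero_comp, zero_comp]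
  by_cases hn : n < l + 2 * a'
  · have h2 := right_zero h' hπ' hρ hL n hn
    rw [← comp_assoc C (ρ n), h2, comp_zero]
  have h3 := hL γ hγ hγ0 m n (by omega)
  calc C.comp (C.comp (C.comp (C.comp (π k) f) (ρ m)) γ) (C.comp (ρ n) (C.comp g' (π' l)))
      = C.comp (C.comp (C.comp (π k) f) (C.comp (C.comp (ρ m) γ) (ρ n))) (C.comp g' (π' l)) := by
        simp only [comp_assoc]
    _ = 0 := by rw [h3, comp_zero, zero_comp]

/-- Composition of summands. -/
lemma Sm.trans {a b : ℕ} {f : C.A (X.prod Y)} {g : C.A (Y.prod X)} (h : Sm C a X Y f g)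
    {f' : C.A (Y.prod Z)} {g' : C.A (Z.prod Y)} (h' : Sm C b Y Z f' g') :
    Sm C (a + b) X Z (C.comp f f') (C.comp g' g) where
  f_deg := by
    have h1 : C.Deg ((Y.dim : ℤ) + (a + b) - a) f' := by
      have e : (Y.dim : ℤ) + (a + b) - a = Y.dim + b - 0 := by ring
      rw [e]
      exact h'.f_deg
    have h2 := MM.comp_deg h.f_deg h1
    push_cast
    exact h2
  g_deg := by
    have h1 : C.Deg ((Z.dim : ℤ) + a - (a + b)) g' := by
      have e : (Z.dim : ℤ) + a - (a + b) = Z.dim + 0 - b := by ring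
      rw [e]
      exact h'.g_deg
    have h2 := MM.comp_deg h1 h.g_deg
    push_cast
    exact h2
  eq := by
    calc C.comp (C.comp f f') (C.comp g' g)
        = C.comp (C.comp f (C.comp f' g')) g := by simp only [comp_assoc]
      _ = dg C X := by rw [h'.eq, comp_dg, h.eq]

end Pool.Agent.Q28.MJ
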