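import Pool.Agent.Q28.MJ.Low
import Pool.Agent.Q28.MR.Own

/-!
# The filtrations of single varieties
-/

open CategoryTheory AlgebraicGeometry

universe u v w

namespace Pool.Agent.Q28.MJ

open Pool.Agent.H914 Pool.Agent.H914.VarClass Pool.Agent.H914.VarClass.Obj Pool.Agent.W492.BB
  Pool.Agent.W550.Corr Pool.Agent.TH133 Pool.Agent.Y148.BB
open Pool.Agent.Q28.MC (KernelLowers)

set_option linter.unusedSectionVars false

variable {k : Type u} [Field k] {𝒱 : VarClass k}

variable {C : TheoryData.{u, v, 0} 𝒱 ℚ} {K : Type w} [Field K] {H : WeilTheoryData.{u, v, w} C K}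
  [hC : IsChowProj C] [hH : IsWeilProj H] {X Y Z W : 𝒱.Obj}

/-- Homologically trivial self-correspondences of all degrees lower the weights strictly. -/
def LowAll (H : WeilTheoryData.{u, v, w} C K) (π : ℕ → C.A (X.prod X)) : Prop :=
  ∀ (i j : ℤ) (Γ : C.A (X.prod X)), C.Deg (X.dim + i - j) Γ → H.cl Γ = 0 →
    ∀ a b : ℕ, (a : ℤ) + 2 * (i - j) ≤ b → C.comp (C.comp (π a) Γ) (π b) = 0

include hC hH

lemma LowAll.lowers {π : ℕ → C.A (X.prod X)} (h : LowAll H π) : KernelLowers H π := by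
  intro γ hγ h0 a b hab
  exact h 0 0 γ (by simpa using hγ) h0 a b (by simpa using hab)

/-- Correspondences of all degrees do not raise the weights. -/
lemma LowAll.lower {π : ℕ → C.A (X.prod X)} (h : IsCK H X π) (hL : LowAll H π)
    {i j : ℤ} {Γ : C.A (X.prod X)} (hΓ : C.Deg (X.dim + i - j) Γ) {a b : ℕ}
    (hab : (a : ℤ) + 2 * (i - j) < b ∨ ((a : ℤ) + 2 * (i - j) = b ∧ Kills H Γ a)) :
    C.comp (C.comp (π a) Γ) (π b) = 0 := by
  rw [← MR.sand_sand h]
  apply hL i j _ (MR.sand_deg h h hΓ a b)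
  · apply MR.cl_sand h h hΓ
    rcases hab with h1 | h1
    · exact Or.inl h1.ne
    · exact Or.inr h1.2
  · rcases hab with h1 | h1
    · exact h1.le
    · exact h1.1.le

lemma n_zero {N : ∀ X : 𝒱.Obj, ℕ → Submodule ℚ (C.A X)} (hN : IsAbelJacobiKernel H N)
    {x : C.A X} (hx : x ∈ N X 0) : x = 0 := by
  obtain ⟨h1, h2⟩ := hN.deg X 0 x hx
  obtain ⟨q, rfl⟩ := hC.gr_zero X x (by simpa using h1)
  by_cases hq : q = 0
  · rw [hq, zero_smul]
  · exfalso
    apply hH.one_ne_zero X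
    have h3 : H.cl (q⁻¹ • (q • (1 : C.A X))) = 0 := GL.cl_smul_zero h2 q⁻¹
    rwa [smul_smul, inv_mul_cancel₀ hq, one_smul, map_one] at h3

/-- The filtration of `X` attached to `π`. -/
lemma isLoc_ckFil {N : ∀ X : 𝒱.Obj, ℕ → Submodule ℚ (C.A X)} (hN : IsAbelJacobiKernel H N)
    {π : ℕ → C.A (X.prod X)} (h : IsCK H X π) (hL : LowAll H π) (hA : KillsAJ N π) :
    GL.IsLoc H N X (ckFil C π) where
  anti j ν z hz := by
    rw [h.mem_ckFil] at *
    exact ⟨hz.1, fun m hm => hz.2 m (by omega)⟩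
  zero j z := by
    rw [h.mem_ckFil]
    refine ⟨fun h1 => h1.1, fun hz => ⟨hz, fun m hm => ?_⟩⟩
    have h1 : C.Deg j (C.act (π m) z) := act_mem0 C (h.deg m) hz
    have h2 : H.cl (C.act (π m) z) = 0 := by
      rw [cl_act]
      have h3 := H.cl_mem (C := C) (X := X) hz
      exact h.act_ne m _ _ (by omega) h3
    have h3 := MC.act_eq_zero_of_lowers h hL.lowers h1 h2 (b := m) (by omega)
    rwa [← C.act_comp, h.idem] at h3
  one j z := by
    rw [h.mem_ckFil]
    constructor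
    · rintro ⟨h1, h2⟩
      refine ⟨h1, ?_⟩
      have h3 := H.cl_mem (C := C) (X := X) h1
      have h4 := h.act_self (2 * j) (H.cl z) (by exact_mod_cast h3)
      rw [← h4, ← cl_act, h2 (2 * j) (by omega), map_zero]
    · rintro ⟨h1, h2⟩
      exact ⟨h1, fun m hm => MC.act_eq_zero_of_lowers h hL.lowers h1 h2 (by omega)⟩
  two j := by
    ext z
    rw [h.mem_ckFil]
    constructor
    · rintro ⟨h1, h2⟩
      have hz0 : H.cl z = 0 := by
        have h3 := H.cl_mem (C := C) (X := X) h1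
        have h4 := h.act_self (2 * j) (H.cl z) (by exact_mod_cast h3)
        rw [← h4, ← cl_act, h2 (2 * j) (by omega), map_zero]
      have hdg : C.Deg (X.dim + (j : ℤ) - j) (dg C X) := by simpa using dg_mem C X
      rcases Nat.eq_zero_or_pos j with hj | hj
      · subst hj
        have h3 : Kills H (dg C X) (2 * (0 : ℕ) - 1) := by
          intro a ha
          have h5 : a ∈ H.gr X (2 * (0 : ℕ) - 1) := ha
          rw [H.gr_neg X _ (by norm_num)] at h5
          rw [(Submodule.mem_bot _).1 h5, GL.actH_zero]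
        have h4 := hN.kills X X 0 0 (dg C X) (by simpa using dg_mem C X) (by simpa using h3) z
          h1 hz0
        rwa [act_dg] at h4
      · have h3 : Kills H (dg C X - π (2 * j - 1)) (2 * j - 1) := by
          intro a ha
          rw [map_sub, H.act_sub, TH133.actH_dg, h.act_self (2 * j - 1) a (by
            have e : (2 * (j : ℤ) - 1) = ((2 * j - 1 : ℕ) : ℤ) := by omega
            rw [← e]; exact ha), sub_self]
        have h4 := hN.kills X X j j (dg C X - π (2 * j - 1))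
          (Submodule.sub_mem _ hdg (by simpa using h.deg _)) h3 z h1 hz0
        rwa [C.act_sub, act_dg, h2 (2 * j - 1) (by omega), sub_zero] at h4
    · intro hz
      obtain ⟨h1, h2⟩ := hN.deg X j z hz
      refine ⟨h1, fun m hm => ?_⟩
      by_cases hm2 : 2 * j ≤ m
      · exact MC.act_eq_zero_of_lowers h hL.lowers h1 h2 hm2
      · have e : m = 2 * j - 1 := by omega
        rw [e]
        exact hA j z hz
  stable j i ν Γ hΓ z hz := MR.act_mem_ckFil h hΓ (fun a b ha hb =>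
    hL.lower h hΓ (Or.inl (by omega))) hz
  shift j i ν Γ hΓ hk z hz := MR.act_mem_ckFil h hΓ (fun a b ha hb => by
    apply hL.lower h hΓ
    by_cases hab : (a : ℤ) + 2 * ((i : ℤ) - j) < b
    · exact Or.inl hab
    · refine Or.inr ⟨by omega, ?_⟩
      have e : (a : ℤ) = 2 * j - ν := by omega
      rw [e]
      exact hk) hz

/-- All correspondences of `X` lower the weights if `h(X × X)` is, up to a twist, a summand of
`h(Z)`. -/
lemma lowAll_of {c : ℕ} {f : C.A ((X.prod X).prod Z)} {g : C.A (Z.prod (X.prod X))}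
    (h : Sm C c (X.prod X) Z f g) {ρ : ℕ → C.A (Z.prod Z)} (hρ : IsCK H Z ρ)
    (hL : KernelLowers H ρ) {π : ℕ → C.A (X.prod X)} (hπ : IsCK H X π) : LowAll H π := by
  intro i j Γ hΓ h0 a b hab
  by_cases h1 : (X.dim : ℤ) < i - j
  · have h2 : Γ = 0 := hC.gr_top _ _ _ hΓ (by rw [dim_prod]; push_cast; omega)
    rw [h2, comp_zero, zero_comp]
  by_cases h3 : i - j < -(X.dim : ℤ)
  · have h2 : Γ = 0 := by
      have h4 : Γ ∈ C.gr (X.prod X) (X.dim + i - j) := hΓ
      rw [C.gr_neg _ _ (by omega)] at h4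
      exact (Submodule.mem_bot _).1 h4
    rw [h2, comp_zero, zero_comp]
  have key : ∀ s : ℕ, s ≤ X.dim → ∃ f' g', Sm C (s + c) X Z f' g' := by
    intro s hs
    obtain ⟨f1, g1, h5⟩ := sm_iff.1 (summand_square (C := C) (H := H) X hs)
    exact ⟨_, _, h5.trans (H := H) h⟩
  obtain ⟨s, s', hs, hs', hss⟩ : ∃ s s' : ℕ, s ≤ X.dim ∧ s' ≤ X.dim ∧
      (s : ℤ) = s' + (i - j) := by
    rcases le_total 0 (i - j) with hr | hr
    · exact ⟨(i - j).toNat, 0, by omega, Nat.zero_le _, by push_cast; omega⟩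
    · exact ⟨0, (j - i).toNat, Nat.zero_le _, by omega, by push_cast; omega⟩
  obtain ⟨f1, g1, h5⟩ := key s hs
  obtain ⟨f2, g2, h6⟩ := key s' hs'
  exact lower_all h5 h6 hπ hπ hρ hL (by push_cast; omega) hΓ h0 hab

/-- The condition on the kernel of the Abel-Jacobi map passes to summands. -/
lemma killsAJ_of {N : ∀ X : 𝒱.Obj, ℕ → Submodule ℚ (C.A X)} (hN : IsAbelJacobiKernel H N)
    {c : ℕ} {f : C.A (X.prod Z)} {g : C.A (Z.prod X)} (h : Sm C c X Z f g)
    {ρ : ℕ → C.A (Z.prod Z)} (hρ : IsCK H Z ρ) (hL : KernelLowers H ρ) (hA : KillsAJ N ρ)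
    {π : ℕ → C.A (X.prod X)} (hπ : IsCK H X π) : KillsAJ N π := by
  intro j x hx
  rcases Nat.eq_zero_or_pos j with hj | hj
  · subst hj
    rw [n_zero hN hx, C.act_map_zero]
  have hf : C.Deg ((X.dim : ℤ) + ((j + c : ℕ) : ℤ) - (j : ℕ)) f := by
    have e : (X.dim : ℤ) + ((j + c : ℕ) : ℤ) - (j : ℕ) = X.dim + c - 0 := by push_cast; ring
    rw [e]
    exact h.f_deg
  have hy : C.act f x ∈ N Z (j + c) := hN.stable X Z j (j + c) f hf x hx
  obtain ⟨h1, h2⟩ := hN.deg Z (j + c) _ hy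
  have hx1 : C.act g (C.act f x) = x := by rw [← C.act_comp, h.eq, act_dg]
  have h3 : C.act f x = ∑ m ∈ Finset.range (2 * Z.dim + 1), C.act (ρ m) (C.act f x) := by
    rw [← act_sum, hρ.sum, act_dg]
  have h4 : C.act (π (2 * j - 1)) x = C.act (π (2 * j - 1)) (C.act g
      (∑ m ∈ Finset.range (2 * Z.dim + 1), C.act (ρ m) (C.act f x))) := by
    rw [← h3, hx1]
  rw [h4, act_map_sum, act_map_sum]
  apply Finset.sum_eq_zero
  intro m _
  by_cases hm : 2 * (j + c) ≤ m
  · rw [MC.act_eq_zero_of_lowers hρ hL h1 h2 hm, C.act_map_zero, C.act_map_zero]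
  by_cases hm2 : m = 2 * (j + c) - 1
  · rw [hm2, hA (j + c) _ hy, C.act_map_zero, C.act_map_zero]
  · rw [← C.act_comp, ← C.act_comp, ← comp_assoc, right_zero h hπ hρ hL m (by omega),
      C.act_zero]

/-- The condition (B1) passes to summands. -/
lemma satisfiesB1_of {f : C.A (X.prod Z)} {g : C.A (Z.prod X)} (h : Sm C 0 X Z f g)
    {ρ : ℕ → C.A (Z.prod Z)} (hρ : IsCK H Z ρ) (hL : KernelLowers H ρ) (hB : SatisfiesB1 ρ)
    {π : ℕ → C.A (X.prod X)} (hπ : IsCK H X π) : SatisfiesB1 π := by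
  intro j
  rw [eq_bot_iff]
  intro x hx
  rw [hπ.mem_ckFil] at hx
  have hf : C.Deg ((X.dim : ℤ) + (j : ℤ) - j) f := by
    have e : (X.dim : ℤ) + (j : ℤ) - j = X.dim + (0 : ℕ) - 0 := by push_cast; ring
    rw [e]
    exact h.f_deg
  have hx1 : C.act g (C.act f x) = x := by rw [← C.act_comp, h.eq, act_dg]
  have hx2 : x = ∑ m ∈ Finset.range (2 * X.dim + 1), C.act (π m) x := by
    rw [← act_sum, hπ.sum, act_dg]
  have h1 : C.act f x ∈ ckFil C ρ j (j + 1) := by
    rw [hρ.mem_ckFil]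
    refine ⟨MM.act_deg hf hx.1, fun n hn => ?_⟩
    rw [hx2, act_map_sum, act_map_sum]
    apply Finset.sum_eq_zero
    intro m _
    by_cases hm : j ≤ m
    · rw [hx.2 m (by omega), C.act_map_zero, C.act_map_zero]
    · rw [← C.act_comp, ← C.act_comp, ← comp_assoc, left_zero h hπ hρ hL n (by omega),
        C.act_zero]
  rw [hB j, Submodule.mem_bot] at h1
  rw [Submodule.mem_bot, ← hx1, h1, C.act_map_zero]

end Pool.Agent.Q28.MJ
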