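import Pool.Agent.Y148.BB.Defs

/-!
# Bloch-Beilinson filtrations from one group per variety: the notions of the statement
-/

open CategoryTheory AlgebraicGeometry

universe u v w

namespace Pool.Agent.Q28.MJ

open Pool.Agent.H914 Pool.Agent.H914.VarClass Pool.Agent.H914.VarClass.Obj Pool.Agent.W492.BB
  Pool.Agent.W550.Corr Pool.Agent.TH133 Pool.Agent.Y148.BB

variable {k : Type u} [Field k] {𝒱 : VarClass k} {C : TheoryData.{u, v, 0} 𝒱 ℚ}

/-- For every variety `X` some Tate twist `h(X)(-c)`, `c ∈ cs`, of its Chow motive is a direct summand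
of the Chow motive of some `Z` in `𝓕`: there are correspondences `f ∈ CH^(dim X + c)(X × Z)`,
`g ∈ CH^(dim Z - c)(Z × X)` with `g ∘ f = Δ_X`. -/
def Generates (C : TheoryData.{u, v, 0} 𝒱 ℚ) (cs : Set ℕ) (𝓕 : 𝒱.Obj → Prop) : Prop :=
  ∀ X, ∃ Z, 𝓕 Z ∧ ∃ c ∈ cs, ∃ (f : C.A (X.prod Z)) (g : C.A (Z.prod X)),
    C.Deg ((X.dim : ℤ) + c) f ∧ C.Deg ((Z.dim : ℤ) - c) g ∧ C.comp f g = dg C X

variable {K : Type w} [Field K] (H : WeilTheoryData.{u, v, w} C K)

/-- A family `F X j ν = F^ν CH^j(X)` of descending filtrations on the Chow groups of all varieties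
with `F^0 CH^j = CH^j`, `F^1 CH^j` the homologically trivial classes, `F^2` the kernels `N` of the
Abel-Jacobi maps, `F^(M j) CH^j = 0`, and such that every correspondence
`Γ ∈ CH^(dim X + i - j)(X × Y)` maps `F^ν CH^j(X)` to `F^ν CH^i(Y)`, and to `F^(ν + 1) CH^i(Y)` if it
acts as zero on `H^(2 j - ν)(X)`. For `M j = j + 1` it is a Bloch-Beilinson filtration. -/
structure IsSystem (N : ∀ X : 𝒱.Obj, ℕ → Submodule ℚ (C.A X)) (M : ℕ → ℕ)
    (F : ∀ X : 𝒱.Obj, ℕ → ℕ → Submodule ℚ (C.A X)) : Prop where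
  anti : ∀ X j ν, F X j (ν + 1) ≤ F X j ν
  zero : ∀ X (j : ℕ) (z : C.A X), z ∈ F X j 0 ↔ C.Deg j z
  one : ∀ X (j : ℕ) (z : C.A X), z ∈ F X j 1 ↔ C.Deg j z ∧ H.cl z = 0
  two : ∀ X j, F X j 2 = N X j
  top : ∀ X j, F X j (M j) = ⊥
  corr : ∀ X Y (j i ν : ℕ) (Γ : C.A (X.prod Y)), C.Deg (X.dim + i - j) Γ → ∀ z ∈ F X j ν,
    C.act Γ z ∈ F Y i ν ∧ (Kills H Γ (2 * j - ν) → C.act Γ z ∈ F Y i (ν + 1))

/-- The condition on one Chow-Kunneth decomposition `π` of the variety `Z`: every homologically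
trivial class `γ` in the one group `CH^(dim Z)(Z × Z)` strictly lowers the weights,
`π_b ∘ γ ∘ π_a = 0` for `a ≤ b` (Murre's condition (D) for the decomposition `π^t × π` of `Z × Z` in
this group), and `π (2 j - 1)` acts as zero on the kernel `N Z j` of the Abel-Jacobi map on
`CH^j(Z)`, for all `j`. -/
structure IsGood (N : ∀ X : 𝒱.Obj, ℕ → Submodule ℚ (C.A X)) {Z : 𝒱.Obj}
    (π : ℕ → C.A (Z.prod Z)) : Prop where
  isCK : IsCK H Z π
  lower : ∀ γ : C.A (Z.prod Z), C.Deg Z.dim γ → H.cl γ = 0 → ∀ a b : ℕ, a ≤ b →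
    C.comp (C.comp (π a) γ) (π b) = 0
  kills : ∀ (j : ℕ) (z : C.A Z), z ∈ N Z j → C.act (π (2 * j - 1)) z = 0

/-- A consequence of the Lefschetz theorems and of the Lefschetz standard conjecture for `X`: the
cohomology `H^m(X)` is a direct summand, by means of correspondences of degree zero, of the
cohomology of a variety `Y` of dimension at most `m` (a smooth linear section of `X`). -/
def LefschetzFactors : Prop :=
  ∀ (X : 𝒱.Obj) (m : ℕ), ∃ (Y : 𝒱.Obj) (a : C.A (X.prod Y)) (b : C.A (Y.prod X)), Y.dim ≤ m ∧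
    C.Deg X.dim a ∧ C.Deg Y.dim b ∧
    ∀ α : H.A X, H.Deg m α → H.act (H.cl b) (H.act (H.cl a) α) = α

end Pool.Agent.Q28.MJ
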