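import Pool.Agent.Q28.MJ.Defs
import Pool.Agent.Q28.MM.Main
import Pool.Agent.Q28.GL.Main

/-!
# The twists of `h(X)` in `h(X × X)`, and the weights of all correspondences
-/

open CategoryTheory AlgebraicGeometry

universe u v w

namespace Pool.Agent.Q28.MJ

open Pool.Agent.H914 Pool.Agent.H914.VarClass Pool.Agent.H914.VarClass.Obj Pool.Agent.W492.BB
  Pool.Agent.W550.Corr Pool.Agent.TH133

set_option linter.unusedSectionVars false

variable {k : Type u} [Field k] {𝒱 : VarClass k}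

variable {C : TheoryData.{u, v, 0} 𝒱 ℚ} {K : Type w} [Field K] {H : WeilTheoryData.{u, v, w} C K}
  [hC : IsChowProj C] [hH : IsWeilProj H] {X Y Z W : 𝒱.Obj}

include hC

lemma comp_push_graph (f : C.A (X.prod W)) (p : W ⟶ Y) (v : C.A W) :
    C.comp f (C.push (Obj.lift (𝟙 W) p) v) =
      C.push (prodMap (𝟙 X) p) (f * C.pull (snd X W) v) := by
  rw [comp_eq_extR, TheoryData.extR, C.base_snd, ← C.proj_right, ← C.push_comp, ← C.pull_comp]
  have e1 : prodMap (𝟙 X) (Obj.lift (𝟙 W) p) ≫ u12 X W Y = 𝟙 _ := by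
    apply prod_ext <;> simp [u12]
  have e2 : prodMap (𝟙 X) (Obj.lift (𝟙 W) p) ≫ u13 X W Y = prodMap (𝟙 X) p := by
    apply prod_ext <;> simp [u13]
  rw [e1, e2, C.pull_id, chow_mul_comm]

include hH

/-- The twists `h(X)(-s)`, `0 ≤ s ≤ dim X`, are direct summands of `h(X × X)`. -/
lemma summand_square (X : 𝒱.Obj) {s : ℕ} (hs : s ≤ X.dim) : MM.Summand C s X (X.prod X) := by
  obtain ⟨u, hu, v, hv, huv⟩ := exists_dual_pair (C := C) (H := H) X (l := s) hs
  refine ⟨C.push (Obj.lift (snd X X) (𝟙 _)) (C.pull (fst X X) u),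
    C.push (Obj.lift (𝟙 _) (snd X X)) (C.pull (fst X X) v), ?_, ?_, ?_⟩
  · have h := C.push_mem (Obj.lift (snd X X) (𝟙 (X.prod X))) (C.pull_mem (fst X X) hu)
    have e : (s : ℤ) + 1 * (((X.prod (X.prod X)).dim : ℤ) - ((X.prod X).dim : ℤ)) = X.dim + s := by
      rw [dim_prod X (X.prod X)]; push_cast; ring
    rwa [e] at h
  · have h := C.push_mem (Obj.lift (𝟙 (X.prod X)) (snd X X)) (C.pull_mem (fst X X) hv)
    have e : ((X.dim : ℤ) - s) + 1 * ((((X.prod X).prod X).dim : ℤ) - ((X.prod X).dim : ℤ)) =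
        (X.prod X).dim - s := by
      rw [dim_prod (X.prod X) X, dim_prod X X]; push_cast; ring
    rwa [e] at h
  · rw [comp_push_graph, ← C.proj_right, ← C.pull_comp, Obj.lift_snd, C.pull_id, ← C.push_comp,
      ← map_mul (C.pull (fst X X))]
    have e1 : Obj.lift (snd X X) (𝟙 (X.prod X)) ≫ prodMap (𝟙 X) (snd X X) =
        snd X X ≫ Obj.lift (𝟙 X) (𝟙 X) := by
      apply prod_ext <;> simp [comp_lift]
    rw [e1, C.push_comp, chow_mul_comm u v, huv]
    rfl

end Pool.Agent.Q28.MJ
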